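import Pool.Agent.Helper89.Vol.Goals

/-!
# Project V36 (MP_cd13d2_co), packet LSC: the volume of a hull is lower semicontinuous
-/

set_option autoImplicit false

open MeasureTheory Set Metric

namespace Pool.Agent.Helper12.Vol.PkLSC

theorem thm : Pool.Agent.Helper89.Vol.G_LSC := by
  intro d n p r hr
  set H : Set (EuclideanSpace ℝ (Fin d)) := convexHull ℝ (range p) with hH
  have hconv : Convex ℝ H := convex_convexHull ℝ _
  have hfr : volume (frontier H) = 0 := hconv.addHaar_frontier volume
  have h1 : volume H ≤ volume (interior H) := by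
    have h2 : H ⊆ interior H ∪ frontier H := fun x hx => by
      by_cases h3 : x ∈ interior H
      · exact Or.inl h3
      · exact Or.inr ⟨subset_closure hx, h3⟩
    calc volume H ≤ volume (interior H ∪ frontier H) := measure_mono h2
      _ ≤ volume (interior H) + volume (frontier H) := measure_union_le _ _
      _ = volume (interior H) := by rw [hfr, add_zero]
  obtain ⟨K, hK, hKc, hrK⟩ := isOpen_interior.exists_lt_isCompact (hr.trans_le h1)
  obtain ⟨δ, hδ, hth⟩ := hKc.exists_cthickening_subset_open isOpen_interior hK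
  refine ⟨δ, hδ, fun q hq => hrK.trans_le (measure_mono fun z hz => ?_)⟩
  by_contra hzq
  have hcl : IsClosed (convexHull ℝ (range q)) := ((finite_range q).isCompact_convexHull ℝ).isClosed
  obtain ⟨f, u, hfu, huz⟩ :=
    geometric_hahn_banach_closed_point (convex_convexHull ℝ (range q)) hcl hzq
  set v : EuclideanSpace ℝ (Fin d) := (InnerProductSpace.toDual ℝ _).symm f with hv
  have hf : ∀ x, f x = inner ℝ v x := fun x => by
    rw [hv, InnerProductSpace.toDual_symm_apply]
  have hne : (range p).Nonempty := by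
    rw [← convexHull_nonempty_iff (𝕜 := ℝ)]
    exact ⟨z, interior_subset (hK hz)⟩
  obtain ⟨-, i0, -⟩ := hne
  have hi0 : q i0 ∈ convexHull ℝ (range q) := subset_convexHull ℝ _ ⟨i0, rfl⟩
  have hv0 : v ≠ 0 := by
    intro h0
    have h2 := hfu _ hi0
    rw [hf, h0, inner_zero_left] at h2
    rw [hf, h0, inner_zero_left] at huz
    exact lt_asymm h2 huz
  have hvp : 0 < ‖v‖ := norm_pos_iff.2 hv0
  have hmem : z + (δ / ‖v‖) • v ∈ convexHull ℝ (range p) := by
    refine interior_subset (hth ?_)
    refine mem_cthickening_of_dist_le _ z δ K hz ?_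
    rw [dist_eq_norm, add_sub_cancel_left, norm_smul, Real.norm_of_nonneg (by positivity),
      div_mul_cancel₀ _ hvp.ne']
  have hsub : convexHull ℝ (range p) ⊆ {x | f x < f z + δ * ‖v‖} := by
    refine convexHull_min ?_ ?_
    · rintro x ⟨i, rfl⟩
      have h2 := hfu _ (subset_convexHull ℝ _ ⟨i, rfl⟩ : q i ∈ convexHull ℝ (range q))
      have h3 : f (p i) - f (q i) < δ * ‖v‖ := by
        rw [← map_sub, hf]
        calc inner ℝ v (p i - q i) ≤ ‖v‖ * ‖p i - q i‖ := real_inner_le_norm _ _
          _ < ‖v‖ * δ := by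
            refine mul_lt_mul_of_pos_left ?_ hvp
            rw [← dist_eq_norm]
            exact hq i
          _ = δ * ‖v‖ := mul_comm _ _
      show f (p i) < f z + δ * ‖v‖
      linarith
    · exact convex_halfSpace_lt f.toLinearMap.isLinear _
  have h2 : f (z + (δ / ‖v‖) • v) < f z + δ * ‖v‖ := hsub hmem
  rw [map_add, map_smul, hf v, real_inner_self_eq_norm_sq, smul_eq_mul] at h2
  have h3 : δ / ‖v‖ * ‖v‖ ^ 2 = δ * ‖v‖ := by
    field_simp
  rw [h3] at h2
  exact lt_irrefl _ h2

end Pool.Agent.Helper12.Vol.PkLSC
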